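import Mathlib

set_option autoImplicit false

/-! # Classes modulo twice a commutative group (helper342) -/

namespace Pool.Agent.N342.GK

section

variable {A : Type} [AddCommGroup A]

theorem two_pow_succ_nsmul (n : ℕ) (x : A) : (2 ^ (n + 1) : ℕ) • x = (2 ^ n : ℕ) • (x + x) := by
  rw [pow_succ, mul_nsmul', two_nsmul]

theorem fin_tors (h4 : Finite {x : A // x + x = 0}) (k : ℕ) : {x : A | (2 ^ k : ℕ) • x = 0}.Finite := by
  induction k with
  | zero =>
    have : {x : A | (2 ^ 0 : ℕ) • x = 0} = {0} := by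
      ext x
      simp
    rw [this]
    exact Set.finite_singleton 0
  | succ k ih =>
    have h1 : {x : A | (2 ^ (k + 1) : ℕ) • x = 0} =
        (fun x : A => x + x) ⁻¹' {x : A | (2 ^ k : ℕ) • x = 0} := by
      ext x
      rw [Set.mem_preimage, Set.mem_ofPred_eq, Set.mem_ofPred_eq, two_pow_succ_nsmul]
    rw [h1]
    refine ih.preimage' fun b _ => ?_
    rcases Set.eq_empty_or_nonempty ((fun x : A => x + x) ⁻¹' {b}) with he | ⟨a, ha⟩
    · rw [he]
      exact Set.finite_empty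
    · have hf : {x : A | x + x = 0}.Finite := Set.finite_coe_iff.1 h4
      refine (hf.image (fun x => a + x)).subset ?_
      intro c hc
      rw [Set.mem_preimage, Set.mem_singleton_iff] at ha hc
      refine ⟨c - a, ?_, by simp⟩
      rw [Set.mem_ofPred_eq]
      calc c - a + (c - a) = (c + c) - (a + a) := by abel
        _ = 0 := by rw [hc, ha, sub_self]

/-- the points killed by `2 ^ N` -/
def T (A : Type) [AddCommGroup A] (N : ℕ) : AddSubgroup A where
  carrier := {x : A | (2 ^ N : ℕ) • x = 0}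
  zero_mem' := smul_zero _
  add_mem' := fun {a b} ha hb => by
    rw [Set.mem_ofPred_eq] at ha hb ⊢
    rw [smul_add, ha, hb, add_zero]
  neg_mem' := fun {a} ha => by
    rw [Set.mem_ofPred_eq] at ha ⊢
    rw [smul_neg, ha, neg_zero]

theorem mem_T (N : ℕ) (x : A) : x ∈ T A N ↔ (2 ^ N : ℕ) • x = 0 := Iff.rfl

/-- doubling -/
def dbl (N : ℕ) : T A N →+ T A N where
  toFun x := x + x
  map_zero' := add_zero 0
  map_add' a b := by abel

theorem classes (N : ℕ) (hN : 1 ≤ N)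
    (h : ∀ x : A, (2 ^ (N + 1) : ℕ) • x = 0 → (2 ^ N : ℕ) • x = 0)
    (h4 : Nat.card {x : A // x + x = 0} = 4) :
    ∃ P : Fin 4 → A, (∀ i, (2 ^ N : ℕ) • P i = 0) ∧ ∀ i j, i ≠ j → ∀ q : A, P i - P j ≠ q + q := by
  have hfin : Finite {x : A // x + x = 0} := Nat.finite_of_card_ne_zero (by rw [h4]; norm_num)
  have hT : Finite (T A N) := (fin_tors hfin N).to_subtype
  have hker : Nat.card (dbl (A := A) N).ker = 4 := by
    rw [← h4]
    refine Nat.card_congr ⟨fun x => ⟨x.1.1, ?_⟩, fun x => ⟨⟨x.1, ?_⟩, ?_⟩, fun x => rfl, fun x => rfl⟩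
    · have := x.2
      rw [AddMonoidHom.mem_ker] at this
      exact congrArg (fun y : T A N => (y : A)) this
    · rw [mem_T]
      obtain ⟨m, rfl⟩ : ∃ m, N = m + 1 := ⟨N - 1, by omega⟩
      rw [two_pow_succ_nsmul, x.2, smul_zero]
    · rw [AddMonoidHom.mem_ker]
      exact Subtype.ext x.2
  have hidx : (dbl (A := A) N).range.index = 4 := by
    have e1 := (dbl (A := A) N).range.card_mul_index
    have e2 := (dbl (A := A) N).ker.card_mul_index
    have e3 : (dbl (A := A) N).ker.index = Nat.card (dbl (A := A) N).range :=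
      AddSubgroup.index_ker _
    rw [e3, hker] at e2
    have e4 : 0 < Nat.card (dbl (A := A) N).range := Nat.card_pos
    have e5 : Nat.card (dbl (A := A) N).range * (dbl (A := A) N).range.index =
        Nat.card (dbl (A := A) N).range * 4 := by
      rw [e1, ← e2]
      ring
    exact Nat.eq_of_mul_eq_mul_left e4 e5
  have hcard : Nat.card (T A N ⧸ (dbl (A := A) N).range) = 4 := hidx
  have hfq : Finite (T A N ⧸ (dbl (A := A) N).range) := Nat.finite_of_card_ne_zero (by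
    rw [hcard]
    norm_num)
  let eq4 : (T A N ⧸ (dbl (A := A) N).range) ≃ Fin 4 := Finite.equivFinOfCardEq hcard
  refine ⟨fun i => ((eq4.symm i).out : T A N), fun i => (mem_T N _).1 ((eq4.symm i).out).2, ?_⟩
  intro i j hij q hq
  have hq0 : (2 ^ N : ℕ) • q = 0 := by
    apply h
    rw [two_pow_succ_nsmul, ← hq, smul_sub, (mem_T N _).1 ((eq4.symm i).out).2,
      (mem_T N _).1 ((eq4.symm j).out).2, sub_zero]
  have h5 : (eq4.symm i).out - (eq4.symm j).out = dbl N ⟨q, hq0⟩ := Subtype.ext hq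
  have h6 : eq4.symm j = eq4.symm i := by
    rw [← QuotientAddGroup.out_eq' (eq4.symm i), ← QuotientAddGroup.out_eq' (eq4.symm j)]
    rw [QuotientAddGroup.eq]
    refine ⟨⟨q, hq0⟩, ?_⟩
    rw [← h5]
    abel
  exact hij (eq4.symm.injective h6).symm

theorem core (N : ℕ) (hN : 1 ≤ N)
    (h : ∀ x : A, (2 ^ (N + 1) : ℕ) • x = 0 → (2 ^ N : ℕ) • x = 0)
    (h4 : Nat.card {x : A // x + x = 0} = 4) :
    (∃ P : Fin 4 → A, ∀ i j, i ≠ j → ∀ q : A, P i - P j ≠ q + q) ∧
    ((∃ x : A, ∀ y : A, (2 ^ N : ℕ) • x ≠ (2 ^ (N + 1) : ℕ) • y) →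
      ∃ P : Fin 8 → A, ∀ i j, i ≠ j → ∀ q : A, P i - P j ≠ q + q) := by
  obtain ⟨P, hP0, hP⟩ := classes N hN h h4
  refine ⟨⟨P, hP⟩, ?_⟩
  rintro ⟨x, hx⟩
  let e : Fin 4 × Fin 2 ≃ Fin 8 := finProdFinEquiv
  let c : Fin 2 → A := fun ε => if ε = 0 then 0 else x
  refine ⟨fun k => P (e.symm k).1 + c (e.symm k).2, ?_⟩
  intro k l hkl q hq
  have hne : e.symm k ≠ e.symm l := fun h => hkl (e.symm.injective h)
  obtain ⟨⟨i, ε⟩, hi⟩ : ∃ p, e.symm k = p := ⟨_, rfl⟩
  obtain ⟨⟨j, δ⟩, hj⟩ : ∃ p, e.symm l = p := ⟨_, rfl⟩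
  have hq' : P (e.symm k).1 + c (e.symm k).2 - (P (e.symm l).1 + c (e.symm l).2) = q + q := hq
  clear hq
  rw [hi, hj] at hne hq'
  have hq : P i + c ε - (P j + c δ) = q + q := hq'
  have key : ∀ y : A, P i - P j + y = q + q → (2 ^ N : ℕ) • y = (2 ^ (N + 1) : ℕ) • q := by
    intro y hy
    rw [two_pow_succ_nsmul, ← hy, smul_add, smul_sub, hP0, hP0, sub_zero, zero_add]
  have hc0 : c 0 = 0 := rfl
  have hc1 : c 1 = x := rfl
  match ε, δ with
  | 0, 0 =>
    rw [hc0, add_zero, add_zero] at hq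
    exact hP i j (fun hij => hne (by rw [hij])) q hq
  | 1, 1 =>
    rw [hc1] at hq
    refine hP i j (fun hij => hne (by rw [hij])) q ?_
    rw [← hq]
    abel
  | 1, 0 =>
    rw [hc0, hc1] at hq
    exact hx q (key x (by rw [← hq]; abel))
  | 0, 1 =>
    rw [hc0, hc1] at hq
    have := key (-x) (by rw [← hq]; abel)
    refine hx (-q) ?_
    rw [smul_neg, ← this, smul_neg, neg_neg]

end

end Pool.Agent.N342.GK
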