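import Pool.Agent.N869.GK.StmX
import Pool.Agent.N342.GK.HRBcore

set_option autoImplicit false

/-! # GK-HRB: group theory (helper342) -/

namespace Pool.Agent.N342.GK

theorem t_HRB : Pool.Agent.N869.GK.X.S_HRB :=
  fun _ _ N hN h h4 => core N hN h h4

end Pool.Agent.N342.GK
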